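import Pool.Agent.TFJ.Stmts

/-!
# TFJ row PER: a periodic word is a power
-/

namespace Pool.Agent.TFJ.H7

open Pool.Agent.TFJ

private theorem per_range {M : Type} [Monoid M] (W : ℕ → M) (m : ℕ) (hW : ∀ j, W (j + m) = W j)
    (q : ℕ) : ((List.range (m * q)).map W).prod = (((List.range m).map W).prod) ^ q := by
  have hW2 : ∀ (k j : ℕ), W (m * k + j) = W j := by
    intro k
    induction k with
    | zero => intro j; rw [Nat.mul_zero, Nat.zero_add]
    | succ k ih =>
      intro j
      rw [Nat.mul_succ, Nat.add_right_comm, hW, ih]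
  induction q with
  | zero => simp
  | succ q ih =>
    rw [Nat.mul_succ, List.range_add, List.map_append, List.prod_append, ih, pow_succ,
      List.map_map]
    congr 2
    apply List.map_congr_left
    intro j _
    exact hW2 q j

/-- TFJ row PER. -/
theorem per : PerStmt := by
  intro M _ P m q x hP hx
  rcases P with _ | n
  · refine ⟨1, ?_⟩
    rw [one_pow]
    unfold wprod
    simp
  · have hpos : 0 < n + 1 := Nat.succ_pos n
    have hstep : ∀ (y : Fin (n + 1) → M) (j : ℕ),
        rot y ⟨j % (n + 1), Nat.mod_lt _ hpos⟩ = y ⟨(j + 1) % (n + 1), Nat.mod_lt _ hpos⟩ := by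
      intro y j
      unfold rot
      rw [finRotate_apply]
      congr 1
      apply Fin.ext
      rw [Fin.val_add]
      simp [Nat.add_mod]
    have hrot : ∀ (k j : ℕ), rot^[k] x ⟨j % (n + 1), Nat.mod_lt _ hpos⟩ =
        x ⟨(j + k) % (n + 1), Nat.mod_lt _ hpos⟩ := by
      intro k
      induction k with
      | zero => intro j; rfl
      | succ k ih =>
        intro j
        rw [Function.iterate_succ_apply', hstep, ih]
        congr 2
        rw [Nat.add_assoc, Nat.add_comm 1 k]
    have hper : ∀ j : ℕ, x ⟨(j + m) % (n + 1), Nat.mod_lt _ hpos⟩ =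
        x ⟨j % (n + 1), Nat.mod_lt _ hpos⟩ := by
      intro j
      rw [← hrot m j, hx]
    refine ⟨((List.range m).map fun j => x ⟨j % (n + 1), Nat.mod_lt _ hpos⟩).prod, ?_⟩
    rw [← per_range (fun j : ℕ => x ⟨j % (n + 1), Nat.mod_lt _ hpos⟩) m hper q, ← hP]
    unfold wprod
    congr 1
    apply List.ext_getElem
    · simp
    · intro i h1 h2
      simp only [List.getElem_ofFn, List.getElem_map, List.getElem_range]
      congr 1
      apply Fin.ext
      rw [List.length_ofFn] at h1
      exact (Nat.mod_eq_of_lt h1).symm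

end Pool.Agent.TFJ.H7
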